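import Mathlib
import Pool.Agent.H108R3.Had.Defs

/-!
Paley's Hadamard matrices of order `p + 1`, and stacking two Hadamard matrices side by side.
-/

set_option autoImplicit false

namespace Pool.Agent.W69.HH

open Finset Matrix Pool.Agent.H108R3.Had

section

variable {p : ℕ} [Fact p.Prime]

/-- the sum of `χ(x) χ(x + c)` -/
theorem sum_shift (hp : p ≠ 2) {c : ZMod p} (hc : c ≠ 0) :
    ∑ x : ZMod p, quadraticChar (ZMod p) x * quadraticChar (ZMod p) (x + c) = -1 := by
  set χ := quadraticChar (ZMod p) with hχ
  have hchar : ringChar (ZMod p) ≠ 2 := by rwa [ZMod.ringChar_zmod_n]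
  have hne : χ ≠ 1 := quadraticChar_ne_one hchar
  have hJ := jacobiSum_nontrivial_inv hne
  have hinv : χ⁻¹ = χ := (quadraticChar_isQuadratic (ZMod p)).inv
  rw [hinv, jacobiSum] at hJ
  have hsq : χ (-1) * χ (-1) = 1 := by
    rw [← map_mul]; simp
  have hcc : χ c * χ c = 1 := by
    have := quadraticChar_sq_one hc
    rw [← hχ] at this
    rw [← sq]; exact this
  have h1 : ∑ x : ZMod p, χ x * χ (x + c) = ∑ y : ZMod p, χ (-c * y) * χ (-c * y + c) := by
    have hb : Function.Bijective (fun y : ZMod p => -c * y) := mulLeft_bijective₀ _ (neg_ne_zero.2 hc)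
    exact (hb.sum_comp (fun x => χ x * χ (x + c))).symm
  rw [h1]
  have h2 : ∀ y : ZMod p, χ (-c * y) * χ (-c * y + c) = χ (-1) * (χ y * χ (1 - y)) := by
    intro y
    have e1 : -c * y + c = c * (1 - y) := by ring
    have e2 : -c * y = (-1) * (c * y) := by ring
    rw [e1, e2, map_mul, map_mul, map_mul]
    calc χ (-1) * (χ c * χ y) * (χ c * χ (1 - y)) = χ (-1) * ((χ c * χ c) * (χ y * χ (1 - y))) := by ring
      _ = _ := by rw [hcc, one_mul]
  rw [sum_congr rfl fun y _ => h2 y, ← mul_sum, hJ, mul_neg, hsq]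

/-- the Paley matrix -/
def pal (p : ℕ) [Fact p.Prime] : Matrix (Option (ZMod p)) (Option (ZMod p)) ℤ
  | none, _ => 1
  | some _, none => -1
  | some i, some j => quadraticChar (ZMod p) (i - j) + if i = j then 1 else 0

theorem pal_sign (i j : Option (ZMod p)) : pal p i j = 1 ∨ pal p i j = -1 := by
  rcases i with _ | i
  · left; rfl
  rcases j with _ | j
  · right; rfl
  by_cases hij : i = j
  · left
    subst hij
    change quadraticChar (ZMod p) (i - i) + (if i = i then 1 else 0) = 1
    simp
  · have h0 : i - j ≠ 0 := sub_ne_zero.2 hij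
    have e : pal p (some i) (some j) = quadraticChar (ZMod p) (i - j) := by
      change quadraticChar (ZMod p) (i - j) + (if i = j then 1 else 0) = _
      rw [if_neg hij, add_zero]
    rw [e]
    exact quadraticChar_dichotomy h0

theorem pal_mul (hp : p % 4 = 3) : pal p * (pal p).transpose = ((p + 1 : ℕ) : ℤ) • (1 : Matrix _ _ ℤ) := by
  have hp2 : p ≠ 2 := by intro h; rw [h] at hp; norm_num at hp
  set χ := quadraticChar (ZMod p) with hχ
  have hchar : ringChar (ZMod p) ≠ 2 := by rwa [ZMod.ringChar_zmod_n]
  have hs0 : ∑ x : ZMod p, χ x = 0 := quadraticChar_sum_zero hchar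
  have hχ0 : χ 0 = 0 := MulChar.map_zero χ
  have hneg : χ (-1) = -1 := by
    have h1 : χ (-1) ≠ 1 := by
      intro h
      have h2 := (quadraticChar_one_iff_isSquare (F := ZMod p) (neg_ne_zero.2 one_ne_zero)).1 h
      have h3 := ZMod.exists_sq_eq_neg_one_iff.1 h2
      exact h3 hp
    exact (quadraticChar_dichotomy (neg_ne_zero.2 one_ne_zero)).resolve_left h1
  have hnegx : ∀ x : ZMod p, χ (-x) = - χ x := by
    intro x
    rw [← neg_one_mul, map_mul, hneg, neg_one_mul]
  have hsub : ∀ i : ZMod p, ∑ j : ZMod p, χ (i - j) = 0 := by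
    intro i
    rw [← hs0]
    exact (Equiv.subLeft i).sum_comp (fun x => χ x)
  have hcor : ∀ i i' : ZMod p, i ≠ i' → ∑ j : ZMod p, χ (i - j) * χ (i' - j) = -1 := by
    intro i i' hii
    rw [← sum_shift hp2 (sub_ne_zero.2 hii.symm)]
    rw [← (Equiv.subLeft i).sum_comp (fun x => quadraticChar (ZMod p) x * quadraticChar (ZMod p) (x + (i' - i)))]
    refine sum_congr rfl fun j _ => ?_
    simp only [Equiv.subLeft_apply]
    rw [show i - j + (i' - i) = i' - j by ring]
  have hself : ∀ i : ZMod p, ∑ j : ZMod p, χ (i - j) * χ (i - j) = p - 1 := by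
    intro i
    have h1 : ∀ j : ZMod p, χ (i - j) * χ (i - j) = 1 - if i = j then 1 else 0 := by
      intro j
      by_cases hij : i = j
      · rw [hij, sub_self, hχ0, if_pos rfl]; norm_num
      · rw [if_neg hij, ← sq, hχ, quadraticChar_sq_one (sub_ne_zero.2 hij)]; ring
    rw [sum_congr rfl fun j _ => h1 j, sum_sub_distrib]
    simp [ZMod.card]
  ext i i'
  rw [Matrix.mul_apply, Matrix.smul_apply, Fintype.sum_option]
  simp only [Matrix.transpose_apply]
  rcases i with _ | i <;> rcases i' with _ | i'
  · have h1 : ∀ x : Option (ZMod p), pal p none x = 1 := fun x => by cases x <;> rfl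
    simp only [h1, Matrix.one_apply_eq]
    simp [ZMod.card]
    ring
  · have h1 : ∀ x : Option (ZMod p), pal p none x = 1 := fun x => by cases x <;> rfl
    simp only [h1, one_mul]
    have h2 : pal p (some i') none = -1 := rfl
    have h3 : ∀ j, pal p (some i') (some j) = χ (i' - j) + if i' = j then 1 else 0 := fun j => rfl
    rw [h2, sum_congr rfl fun j _ => h3 j, sum_add_distrib, hsub]
    simp
  · have h1 : ∀ x : Option (ZMod p), pal p none x = 1 := fun x => by cases x <;> rfl
    simp only [h1, mul_one]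
    have h2 : pal p (some i) none = -1 := rfl
    have h3 : ∀ j, pal p (some i) (some j) = χ (i - j) + if i = j then 1 else 0 := fun j => rfl
    rw [h2, sum_congr rfl fun j _ => h3 j, sum_add_distrib, hsub]
    simp
  · have h2 : ∀ i, pal p (some i) none = -1 := fun i => rfl
    have h3 : ∀ i j, pal p (some i) (some j) = χ (i - j) + if i = j then 1 else 0 := fun i j => rfl
    simp only [h2, h3]
    have h4 : ∀ j : ZMod p, (χ (i - j) + if i = j then 1 else 0) * (χ (i' - j) + if i' = j then 1 else 0)
        = χ (i - j) * χ (i' - j) + (if i = j then χ (i' - j) else 0) + (if i' = j then χ (i - j) else 0)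
          + (if i = j then (if i' = j then 1 else 0) else 0) := by
      intro j
      split_ifs <;> ring
    rw [sum_congr rfl fun j _ => h4 j, sum_add_distrib, sum_add_distrib, sum_add_distrib,
      sum_ite_eq, sum_ite_eq, sum_ite_eq]
    simp only [mem_univ, if_true]
    by_cases hii : i = i'
    · subst hii
      rw [hself, Matrix.one_apply_eq, sub_self, hχ0]
      simp
      ring
    · rw [hcor i i' hii, if_neg (Ne.symm hii)]
      have h5 : χ (i - i') = - χ (i' - i) := by
        rw [← hnegx]; congr 1; ring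
      have h6 : (1 : Matrix (Option (ZMod p)) (Option (ZMod p)) ℤ) (some i) (some i') = 0 := by
        apply Matrix.one_apply_ne
        intro h
        exact hii (Option.some.inj h)
      rw [h5, h6]
      simp

theorem paley (hp : p % 4 = 3) : HasHad (p + 1) := by
  have hc : Fintype.card (Option (ZMod p)) = p + 1 := by
    rw [Fintype.card_option, ZMod.card]
  let e : Option (ZMod p) ≃ Fin (p + 1) := Fintype.equivFinOfCardEq hc
  refine ⟨(pal p).submatrix e.symm e.symm, fun i j => pal_sign _ _, ?_⟩
  rw [Matrix.transpose_submatrix, Matrix.submatrix_mul_equiv, pal_mul hp, Matrix.submatrix_smul,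
    Pi.smul_apply, Pi.smul_apply, Matrix.submatrix_one_equiv]

end

/-- two Hadamard matrices side by side -/
theorem side {a b : ℕ} (ha : HasHad a) (hb : HasHad b) (hab : b ≤ a) :
    ∃ M : Matrix (Fin b) (Fin (a + b)) ℤ, (∀ i j, M i j = 1 ∨ M i j = -1) ∧
      M * M.transpose = ((a + b : ℕ) : ℤ) • (1 : Matrix (Fin b) (Fin b) ℤ) := by
  obtain ⟨A, hA, hAA⟩ := ha
  obtain ⟨B, hB, hBB⟩ := hb
  refine ⟨Matrix.of fun i j => Fin.addCases (fun j => A (Fin.castLE hab i) j) (fun j => B i j) j, ?_, ?_⟩
  · intro i j
    refine Fin.addCases (fun j => ?_) (fun j => ?_) j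
    · simp only [Matrix.of_apply, Fin.addCases_left]; exact hA _ _
    · simp only [Matrix.of_apply, Fin.addCases_right]; exact hB _ _
  · ext i j
    rw [Matrix.mul_apply, Fin.sum_univ_add]
    simp only [Matrix.transpose_apply, Matrix.of_apply, Fin.addCases_left, Fin.addCases_right]
    have h1 := congrFun (congrFun hAA (Fin.castLE hab i)) (Fin.castLE hab j)
    have h2 := congrFun (congrFun hBB i) j
    rw [Matrix.mul_apply] at h1 h2
    simp only [Matrix.transpose_apply] at h1 h2
    rw [h1, h2]
    by_cases hij : i = j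
    · subst hij
      simp
    · have hij' : Fin.castLE hab i ≠ Fin.castLE hab j := by
        intro h; exact hij (Fin.castLE_injective hab h)
      simp [Matrix.one_apply_ne hij, Matrix.one_apply_ne hij']

end Pool.Agent.W69.HH
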