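import Pool.Agent.H387R2.U3
import Pool.Agent.H469R10.HO.Final

/-!
Primes just below `n / 2` in a progression of tiny modulus.
-/

set_option autoImplicit false

open Finset Filter Topology

namespace Pool.Agent.W69.HH

open Pool.Agent.H387R2.Uni

/-- Siegel-Walfisz, for moduli up to `log x`, any power of the logarithm in the error -/
theorem siegelU (U : ℕ) : ∃ x0 : ℕ, ∀ x : ℕ, x0 ≤ x → ∀ q : ℕ, 1 ≤ q → (q : ℝ) ≤ Real.log x →
    ∀ a : ℕ, a < q → a.Coprime q → |H343E.piAP x q a - H343E.pi1 x / (Nat.totient q : ℝ)| ≤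
      x / Real.log x ^ U := by
  obtain ⟨B, x1, h⟩ := H343E.primes_of U (H343E.unsmoothed (U + 2))
  have hs := (log_pow_small (B + 4 : ℕ) (η := 1) one_pos)
  obtain ⟨x2, hx2⟩ := eventually_atTop.1 (tendsto_natCast_atTop_atTop.eventually
    (hs.and (eventually_ge_atTop (Real.exp 1))))
  refine ⟨max x1 x2, fun x hx q hq hqx a ha hac => ?_⟩
  obtain ⟨h1, h2⟩ := hx2 x ((le_max_right _ _).trans hx)
  have hlog : 1 ≤ Real.log x := by
    rw [← Real.log_exp 1]
    exact Real.log_le_log (Real.exp_pos _) h2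
  have hL0 : 0 < Real.log x := by linarith
  rw [one_mul, Real.rpow_natCast] at h1
  have hB : 0 < Real.log x ^ B := by positivity
  have hq0 : (0:ℝ) ≤ q := Nat.cast_nonneg q
  have hq4 : (q:ℝ) ^ 2 * Real.log x ^ B ≤ x := by
    calc (q:ℝ) ^ 2 * Real.log x ^ B ≤ (Real.log x) ^ 2 * Real.log x ^ B := by gcongr
      _ = Real.log x ^ (B + 2) := by ring
      _ ≤ Real.log x ^ (B + 4) := pow_le_pow_right₀ hlog (by omega)
      _ ≤ x := h1
  have hq1 : (1:ℝ) ≤ q := by exact_mod_cast hq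
  classical
  have hmain := h x ((le_max_left _ _).trans hx) 1 le_rfl q (by
      rw [le_div_iff₀ hB]
      refine le_trans ?_ hq4
      gcongr
      nlinarith) (by
      rw [one_mul, le_div_iff₀ hB]; exact hq4)
    (fun q' => if q' = q then {a} else ∅) ⟨by
      intro q' a' ha'
      beta_reduce at ha'
      split_ifs at ha' with hqq
      · rw [mem_singleton] at ha'
        rw [ha', hqq]
        exact ⟨ha, hac⟩
      · exact absurd ha' (notMem_empty _), by
      intro q'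
      beta_reduce
      split_ifs
      · simp
      · simp⟩
  rw [one_mul] at hmain
  have hq' : q ∈ Icc 1 q := mem_Icc.2 ⟨hq, le_rfl⟩
  have h3 := single_le_sum (f := fun q' => ∑ a' ∈ (if q' = q then ({a} : Finset ℕ) else ∅),
    |H343E.piAP x q' a' - H343E.pi1 x / (Nat.totient q' : ℝ)|)
    (fun i _ => sum_nonneg fun _ _ => abs_nonneg _) hq'
  beta_reduce at h3
  rw [if_pos rfl, sum_singleton] at h3
  exact h3.trans hmain

/-- primes in `(X, x]` in a progression, if the count is larger -/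
theorem exists_prime {X x q a : ℕ} (hXx : X ≤ x) (h : H343E.piAP X q a < H343E.piAP x q a) :
    ∃ p, p.Prime ∧ p ≡ a [MOD q] ∧ X < p ∧ p ≤ x := by
  unfold H343E.piAP at h
  have h1 := Nat.cast_lt.1 h
  by_contra hcon
  push Not at hcon
  apply absurd h1
  rw [not_lt]
  apply card_le_card
  intro p hp
  rw [mem_filter, mem_Icc] at hp ⊢
  refine ⟨⟨hp.1.1, ?_⟩, hp.2⟩
  by_contra hXp
  push Not at hXp
  exact absurd hp.1.2 (not_le.2 (hcon p hp.2.1 hp.2.2 hXp))

theorem pi1_sub {X Y : ℕ} : H343E.pi1 (X + Y) - H343E.pi1 X =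
    (((Ioc X (X + Y)).filter Nat.Prime).card : ℝ) := by
  unfold H343E.pi1
  have h1 : (Icc 1 (X + Y)).filter (fun p => p.Prime) =
      (Icc 1 X).filter (fun p => p.Prime) ∪ (Ioc X (X + Y)).filter Nat.Prime := by
    ext p
    simp only [mem_union, mem_filter, mem_Icc, mem_Ioc]
    constructor
    · rintro ⟨⟨h1, h2⟩, h3⟩
      by_cases hp : p ≤ X
      · left; exact ⟨⟨h1, hp⟩, h3⟩
      · right; exact ⟨⟨by omega, h2⟩, h3⟩
    · rintro (⟨⟨h1, h2⟩, h3⟩ | ⟨⟨h1, h2⟩, h3⟩)
      · exact ⟨⟨h1, by omega⟩, h3⟩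
      · exact ⟨⟨h3.one_le, h2⟩, h3⟩
  have h2 : Disjoint ((Icc 1 X).filter (fun p => p.Prime)) ((Ioc X (X + Y)).filter Nat.Prime) := by
    rw [disjoint_left]
    intro p h3 h4
    rw [mem_filter, mem_Icc] at h3
    rw [mem_filter, mem_Ioc] at h4
    omega
  rw [h1, card_union_of_disjoint h2]
  push_cast
  ring

/-- a prime `p ≡ a (mod q)` with `n / 2 - n / (log n)^A ≤ p + 1 ≤ n / 2` -/
theorem prime_half (A : ℕ) : ∃ N : ℕ, ∀ n : ℕ, N ≤ n → ∀ q : ℕ, 1 ≤ q → 2 * (q : ℝ) ≤ Real.log n →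
    ∀ a : ℕ, a < q → a.Coprime q → ∃ p : ℕ, p.Prime ∧ p ≡ a [MOD q] ∧ 2 * (p + 1) ≤ n ∧
      (n : ℝ) / 2 - n / Real.log n ^ A ≤ (p + 1 : ℕ) := by
  obtain ⟨δ, η, hδ, hδ1, hη, X₀, hX₀, hH⟩ := Pool.Agent.H469R10.HO.hoheisel
  obtain ⟨x0, hS⟩ := siegelU (A + 4)
  have e1 := log_pow_small (A + 1 : ℕ) (η := 1 / 8) (by norm_num)
  have e2 := (isLittleO_log_rpow_rpow_atTop (A + 1 : ℕ) hδ).def (show (0:ℝ) < 1 / 2 by norm_num)
  have e3 := Real.tendsto_log_atTop.eventually_ge_atTop (4 * 2 ^ (A + 4) * 2 / η + 10)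
  obtain ⟨N1, hN1⟩ := eventually_atTop.1 (tendsto_natCast_atTop_atTop.eventually
    (e1.and (e2.and e3)))
  refine ⟨max N1 (max (4 * X₀ + 16) (4 * x0 + 16)), fun n hn q hq hqL a ha hac => ?_⟩
  obtain ⟨h1, h2, h3⟩ := hN1 n ((le_max_left _ _).trans hn)
  have hnX : 4 * X₀ + 16 ≤ n := (le_max_left _ _).trans ((le_max_right _ _).trans hn)
  have hnx : 4 * x0 + 16 ≤ n := (le_max_right _ _).trans ((le_max_right _ _).trans hn)
  set L := Real.log n with hL
  have hn16 : (16:ℝ) ≤ n := by exact_mod_cast (by omega : 16 ≤ n)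
  have hn0 : (0:ℝ) < n := by linarith
  have hη' : 0 < 4 * 2 ^ (A + 4) * 2 / η := by positivity
  have hL10 : 10 ≤ L := by linarith
  have hL0 : 0 < L := by linarith
  rw [Real.rpow_natCast] at h1 h2
  rw [Real.norm_of_nonneg (by positivity), Real.norm_of_nonneg (by positivity)] at h2
  have hLA : 0 < L ^ (A + 1) := by positivity
  -- the length
  set Y := ⌊(n : ℝ) / L ^ (A + 1)⌋₊ with hY
  have hYle : (Y : ℝ) ≤ n / L ^ (A + 1) := Nat.floor_le (by positivity)
  have h8 : (8 : ℝ) ≤ n / L ^ (A + 1) := by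
    rw [le_div_iff₀ hLA]; linarith
  have hYge : (n : ℝ) / L ^ (A + 1) / 2 ≤ Y := by
    have := Nat.lt_floor_add_one ((n : ℝ) / L ^ (A + 1))
    rw [← hY] at this
    linarith
  have hY8 : (Y : ℝ) ≤ n / 8 := by
    refine hYle.trans ?_
    apply div_le_div_of_nonneg_left hn0.le (by norm_num)
    calc (8 : ℝ) ≤ L := by linarith
      _ = L ^ 1 := (pow_one _).symm
      _ ≤ L ^ (A + 1) := pow_le_pow_right₀ (by linarith) (by omega)
  have hY8' : 8 * Y ≤ n := by
    have : (8 : ℝ) * Y ≤ n := by linarith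
    exact_mod_cast this
  -- the end points
  set x := n / 2 - 1 with hx
  set X := x - Y with hX
  have hXY : X + Y = x := by omega
  have hX4 : n ≤ 4 * X := by omega
  have hXn : X ≤ n := by omega
  have hxn : x ≤ n := by omega
  have hYX : Y ≤ X := by omega
  have hX4' : (n : ℝ) ≤ 4 * X := by exact_mod_cast hX4
  have hXn' : (X : ℝ) ≤ n := by exact_mod_cast hXn
  have hxn' : (x : ℝ) ≤ n := by exact_mod_cast hxn
  have hXx' : (X : ℝ) ≤ x := by exact_mod_cast (by omega : X ≤ x)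
  have hX0 : (0:ℝ) < X := by linarith
  -- logarithms
  have hlogX : L / 2 ≤ Real.log X := by
    have h5 : Real.log ((n : ℝ) / 4) ≤ Real.log X := Real.log_le_log (by positivity) (by linarith)
    rw [Real.log_div hn0.ne' (by norm_num)] at h5
    have h6 : Real.log 4 ≤ 4 := by
      have := Real.log_le_sub_one_of_pos (show (0:ℝ) < 4 by norm_num)
      linarith
    linarith
  have hlogx : L / 2 ≤ Real.log x := hlogX.trans (Real.log_le_log hX0 hXx')
  have hlogXn : Real.log X ≤ L := Real.log_le_log hX0 hXn'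
  -- Hoheisel
  have hHo := hH X Y (by omega) (by
    have h5 : (X : ℝ) ^ (1 - δ) ≤ (n : ℝ) ^ (1 - δ) :=
      Real.rpow_le_rpow hX0.le hXn' (by linarith)
    refine h5.trans (le_trans ?_ hYge)
    rw [Real.rpow_sub hn0, Real.rpow_one, div_div, div_le_div_iff_of_pos_left hn0 (by positivity)
      (by positivity)]
    linarith) hYX
  rw [← pi1_sub, hXY] at hHo
  -- Siegel-Walfisz
  have hS1 := hS x (by omega) q hq (by linarith) a ha hac
  have hS2 := hS X (by omega) q hq (by linarith) a ha hac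
  rw [abs_le] at hS1 hS2
  have hφ0 : 0 < Nat.totient q := Nat.totient_pos.2 hq
  have hφ : (0:ℝ) < Nat.totient q := by exact_mod_cast hφ0
  have hφL : (Nat.totient q : ℝ) ≤ L := by
    have : (Nat.totient q : ℝ) ≤ q := by exact_mod_cast Nat.totient_le q
    have : (0 : ℝ) ≤ q := Nat.cast_nonneg q
    linarith
  have herr : ∀ z : ℝ, 0 ≤ z → z ≤ n → L / 2 ≤ Real.log z →
      z / Real.log z ^ (A + 4) ≤ n * 2 ^ (A + 4) / L ^ (A + 4) := by
    intro z hz0 hz hlz
    have h5 : (L / 2) ^ (A + 4) ≤ Real.log z ^ (A + 4) := pow_le_pow_left₀ (by linarith) hlz _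
    have h6 : 0 < (L / 2) ^ (A + 4) := by positivity
    calc z / Real.log z ^ (A + 4) ≤ n / (L / 2) ^ (A + 4) := by
          apply div_le_div₀ hn0.le hz h6 h5
      _ = _ := by rw [div_pow]; field_simp
  have E1 := herr x (Nat.cast_nonneg _) hxn' hlogx
  have E2 := herr X (Nat.cast_nonneg _) hXn' hlogX
  have hmain : η * n / (2 * L ^ (A + 3)) ≤ (H343E.pi1 x - H343E.pi1 X) / (Nat.totient q : ℝ) := by
    rw [le_div_iff₀ hφ]
    refine le_trans ?_ hHo
    have h5 : 0 < Real.log X := by linarith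
    rw [le_div_iff₀ h5]
    calc η * n / (2 * L ^ (A + 3)) * (Nat.totient q : ℝ) * Real.log X
        ≤ η * n / (2 * L ^ (A + 3)) * L * L := by
          apply mul_le_mul _ hlogXn h5.le (by positivity)
          exact mul_le_mul_of_nonneg_left hφL (by positivity)
      _ = η * (n / L ^ (A + 1) / 2) := by
          have e : L ^ (A + 3) = L ^ 2 * L ^ (A + 1) := by ring
          rw [e]
          field_simp
      _ ≤ η * Y := mul_le_mul_of_nonneg_left hYge hη.le
  have hbig : 2 * (n * 2 ^ (A + 4) / L ^ (A + 4)) < η * n / (2 * L ^ (A + 3)) := by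
    have h5 : 4 * 2 ^ (A + 4) * 2 < η * L := by
      have h6 : 4 * 2 ^ (A + 4) * 2 / η < L := by linarith
      rw [div_lt_iff₀ hη] at h6
      linarith
    have h6 : 2 * ((n : ℝ) * 2 ^ (A + 4) / L ^ (A + 4)) = n * (2 * 2 ^ (A + 4)) / L ^ (A + 4) := by ring
    rw [h6, div_lt_div_iff₀ (by positivity) (by positivity)]
    have h7 : L ^ (A + 4) = L ^ (A + 3) * L := by ring
    rw [h7]
    have h8 : 0 < (n : ℝ) * L ^ (A + 3) := by positivity
    have h9 : (0:ℝ) < 2 ^ (A + 4) := by positivity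
    nlinarith
  have hlt : H343E.piAP X q a < H343E.piAP x q a := by
    rw [sub_div] at hmain
    have s1 := hS1.1
    have s2 := hS2.2
    clear_value L Y x X
    clear hS1 hS2 herr hHo hH hS hN1 hYge hYle h8
    linarith only [s1, s2, hmain, E1, E2, hbig]
  obtain ⟨p, hp, hpa, hp1, hp2⟩ := exists_prime (by omega) hlt
  refine ⟨p, hp, hpa, by omega, ?_⟩
  have h5 : (n : ℝ) ≤ 2 * (p + 1 : ℕ) + 2 * Y := by
    have : n ≤ 2 * (p + 1) + 2 * Y := by omega
    exact_mod_cast this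
  have h6 : (Y : ℝ) ≤ n / L ^ A := by
    refine hYle.trans ?_
    apply div_le_div_of_nonneg_left hn0.le (by positivity)
    exact pow_le_pow_right₀ (by linarith) (by omega)
  linarith

end Pool.Agent.W69.HH
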