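import Pool.Agent.W69.HH.Paley
import Pool.Agent.W69.HH.Prime
import Pool.Agent.W69.MD.Iter

/-!
Partial Hadamard matrices with `n / 2 - n / (log n)^A` rows in every large order `n` divisible by 4.
-/

set_option autoImplicit false

namespace Pool.Agent.W69.HH

open Finset Matrix Pool.Agent.H108R3.Had Pool.Agent.W851.Had Pool.Agent.W69.MD

/-- Hadamard orders `2 ^ t * q` for all `q ≤ n`, with `2 * 2 ^ t ≤ log n` and `2 ≤ t` -/
theorem had_tiny : ∃ N : ℕ, ∀ n : ℕ, N ≤ n → ∃ t : ℕ, 2 ≤ t ∧ 2 * (2 : ℝ) ^ t ≤ Real.log n ∧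
    ∀ q : ℕ, q ≤ n → HasHad (2 ^ t * q) := by
  obtain ⟨C, hC, h⟩ := main_had
  obtain ⟨a₀, ha₀⟩ := exp_le_tow C 4 hC
  refine ⟨tow (a₀ + 2) + 1, fun n hn => ?_⟩
  have hex : ∃ k, n ≤ tow k := ⟨n, (lt_tow n).le⟩
  obtain ⟨k, hk1, hk2⟩ : ∃ k, n ≤ tow k ∧ ∀ i < k, tow i < n :=
    ⟨Nat.find hex, Nat.find_spec hex, fun i hi => not_le.1 (Nat.find_min hex hi)⟩
  have hka : a₀ + 2 < k := by
    by_contra hcon
    push Not at hcon
    have := hk1.trans (tow_mono hcon)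
    omega
  obtain ⟨a, ha⟩ : ∃ a, k = a + 2 + 1 := ⟨k - 3, by omega⟩
  have haa : a₀ ≤ a := by omega
  have h1 : (tow (a + 2) : ℝ) ≤ n := by
    exact_mod_cast (hk2 (a + 2) (by omega)).le
  have h2 := log_tow a n h1
  have h3 := ha₀ a haa
  have e : k + 1 = a + 4 := by omega
  refine ⟨C ^ (k + 1), ?_, ?_, fun q hq => h k q _ (hq.trans hk1) le_rfl⟩
  · calc 2 ≤ C := hC
      _ = C ^ 1 := (pow_one _).symm
      _ ≤ C ^ (k + 1) := Nat.pow_le_pow_right (by omega) (by omega)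
  · rw [e]
    refine le_trans ?_ (h3.trans h2)
    have := Real.add_one_le_exp (2 * 2 ^ (C ^ (a + 4)) : ℝ)
    linarith

theorem half_hadamard (A : ℕ) : ∃ N : ℕ, ∀ n : ℕ, N ≤ n → 4 ∣ n →
    ∃ (m : ℕ) (M : Matrix (Fin m) (Fin n) ℤ),
      (n : ℝ) / 2 - n / Real.log n ^ A ≤ m ∧ (∀ i j, M i j = 1 ∨ M i j = -1) ∧
        M * M.transpose = (n : ℤ) • (1 : Matrix (Fin m) (Fin m) ℤ) := by
  obtain ⟨N1, h1⟩ := had_tiny
  obtain ⟨N2, h2⟩ := prime_half A
  refine ⟨max N1 (max N2 4), fun n hn h4 => ?_⟩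
  have hn4 : 4 ≤ n := (le_max_right _ _).trans ((le_max_right _ _).trans hn)
  obtain ⟨t, ht, htL, hhad⟩ := h1 n ((le_max_left _ _).trans hn)
  obtain ⟨s, rfl⟩ : ∃ s, t = s + 2 := ⟨t - 2, by omega⟩
  have hq1 : 1 ≤ 2 ^ (s + 2) := Nat.one_le_two_pow
  have h4q : 4 ∣ 2 ^ (s + 2) := ⟨2 ^ s, by rw [pow_add]; ring⟩
  set q := 2 ^ (s + 2) with hq
  have hr : (n - 1) % q < q := Nat.mod_lt _ hq1
  have hmod4 : (n - 1) % q % 4 = 3 := by
    rw [Nat.mod_mod_of_dvd _ h4q]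
    omega
  have hcop : ((n - 1) % q).Coprime q := by
    have h5 : ((n - 1) % q).Coprime 2 := by
      rw [Nat.coprime_two_right, Nat.odd_iff]
      omega
    exact h5.pow_right (s + 2)
  obtain ⟨p, hp, hpa, hp2, hp3⟩ := h2 n ((le_max_left _ _).trans ((le_max_right _ _).trans hn)) q hq1
    (by rw [hq]; push_cast; exact htL) _ hr hcop
  have hpn : p ≡ n - 1 [MOD q] := hpa.trans (Nat.mod_modEq _ _)
  have hp4 : p % 4 = 3 := by
    have h5 : p ≡ n - 1 [MOD 4] := hpn.of_dvd h4q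
    unfold Nat.ModEq at h5
    omega
  have : Fact p.Prime := ⟨hp⟩
  have hb : HasHad (p + 1) := paley hp4
  have hdvd : q ∣ n - (p + 1) := by
    have h5 : q ∣ (n - 1) - p := (Nat.modEq_iff_dvd' (by omega)).1 hpn
    have e : n - (p + 1) = (n - 1) - p := by omega
    rw [e]; exact h5
  obtain ⟨r, hr'⟩ := hdvd
  have hrn : r ≤ n := by
    have : r ≤ q * r := Nat.le_mul_of_pos_left _ hq1
    omega
  have ha : HasHad (n - (p + 1)) := by
    rw [hr']; exact hhad r hrn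
  obtain ⟨M, hM, hMM⟩ := side ha hb (by omega)
  have e : n - (p + 1) + (p + 1) = n := by omega
  refine ⟨p + 1, M.submatrix id (Fin.cast e.symm), hp3, fun i j => hM _ _, ?_⟩
  have h6 : (M.submatrix id (Fin.cast e.symm)) * (M.submatrix id (Fin.cast e.symm)).transpose =
      M * M.transpose := by
    have h7 : (Fin.cast e.symm) = ⇑(finCongr e.symm) := rfl
    rw [h7, Matrix.transpose_submatrix, Matrix.submatrix_mul_equiv, Matrix.submatrix_id_id]
  have hcast : ((n - (p + 1) + (p + 1) : ℕ) : ℤ) = (n : ℤ) := by rw [e]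
  rw [h6, hMM, hcast]

end Pool.Agent.W69.HH
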